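import Mathlib

set_option autoImplicit false

namespace Pool.Agent.Results.MP_25bc1d_an.ShortestForbidden

/-- The symmetric tent map `T_μ(x) = 2 μ min(x, 1 - x)`. -/
noncomputable def tent (μ x : ℝ) : ℝ := 2 * μ * min x (1 - x)

/-- `π` (one-line notation: `π i` is the entry in position `i + 1`) is a permutation of
`{1, ..., n}`. -/
def IsPerm (n : ℕ) (π : Fin n → ℕ) : Prop := Set.BijOn π Set.univ (Set.Icc 1 n)

/-- `π ∈ Allow(f)`, `π` of length `n`: `π` is a permutation of `{1, ..., n}` and for some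
`x ∈ [0,1]` one has `π i < π j ↔ f^i(x) < f^j(x)` for all positions `i, j` (in particular the
values `x, f(x), ..., f^(n-1)(x)` are pairwise distinct). -/
def Allowed (f : ℝ → ℝ) (n : ℕ) (π : Fin n → ℕ) : Prop :=
  IsPerm n π ∧ ∃ x ∈ Set.Icc (0 : ℝ) 1, ∀ i j : Fin n, π i < π j ↔ f^[i] x < f^[j] x

/-- `π` is `μ`-forbidden: allowed for the full tent map `T_1`, but not for `T_μ`. -/
def Forbidden (μ : ℝ) (n : ℕ) (π : Fin n → ℕ) : Prop :=
  Allowed (tent 1) n π ∧ ¬ Allowed (tent μ) n π

/-- `σ_n = (n-1) n 1 2 ... (n-2)` in one-line notation. -/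
def sigma (n : ℕ) (i : Fin n) : ℕ :=
  if (i : ℕ) = 0 then n - 1 else if (i : ℕ) = 1 then n else (i : ℕ) - 1

/-! ### Inverse branches -/

/-- the inverse branches of the tent map of slope `l` (`true` is the right branch) -/
noncomputable def br (l : ℝ) (b : Bool) (t : ℝ) : ℝ := if b then 1 - t / l else t / l

@[simp] lemma br_true (l t : ℝ) : br l true t = 1 - t / l := rfl
@[simp] lemma br_false (l t : ℝ) : br l false t = t / l := rfl

/-- composition of `m` inverse branches, starting at index `i` -/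
noncomputable def B (l : ℝ) (s : ℕ → Bool) : ℕ → ℕ → ℝ → ℝ
  | _, 0, t => t
  | i, m + 1, t => br l (s i) (B l s (i + 1) m t)

@[simp] lemma B_zero (l : ℝ) (s : ℕ → Bool) (i : ℕ) (t : ℝ) : B l s i 0 t = t := by
  unfold B; rfl

lemma B_succ (l : ℝ) (s : ℕ → Bool) (i m : ℕ) (t : ℝ) :
    B l s i (m + 1) t = br l (s i) (B l s (i + 1) m t) := by
  conv_lhs => unfold B

lemma br_mem {l : ℝ} (hl : 1 < l) (b : Bool) {t : ℝ} (ht : t ∈ Set.Icc (0 : ℝ) 1) :
    br l b t ∈ Set.Icc (0 : ℝ) 1 := by
  obtain ⟨h0, h1⟩ := ht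
  have hl0 : 0 < l := by linarith
  have e1 : 0 ≤ t / l := by positivity
  have e2 : t / l ≤ 1 := by rw [div_le_one hl0]; linarith
  cases b
  · exact ⟨by simpa using e1, by simpa using e2⟩
  · constructor
    · rw [br_true]; linarith
    · rw [br_true]; linarith

lemma B_mem {l : ℝ} (hl : 1 < l) (s : ℕ → Bool) (i m : ℕ) {t : ℝ}
    (ht : t ∈ Set.Icc (0 : ℝ) 1) : B l s i m t ∈ Set.Icc (0 : ℝ) 1 := by
  induction m generalizing i with
  | zero => simpa using ht
  | succ m ih => rw [B_succ]; exact br_mem hl _ (ih _)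

lemma B_affine {l : ℝ} (hl : 1 < l) (s : ℕ → Bool) (i m : ℕ) :
    ∃ β : ℝ, |β| = (1 / l) ^ m ∧ ∀ t t', B l s i m t - B l s i m t' = β * (t - t') := by
  have hl0 : 0 < l := by linarith
  induction m generalizing i with
  | zero => exact ⟨1, by simp, fun t t' => by simp⟩
  | succ m ih =>
    obtain ⟨β, h1, h2⟩ := ih (i + 1)
    cases h : s i
    · refine ⟨β / l, ?_, fun t t' => ?_⟩
      · rw [abs_div, abs_of_pos hl0, h1, pow_succ]; ring
      · rw [B_succ, B_succ, h, br_false, br_false, ← sub_div, h2]; ring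
    · refine ⟨-(β / l), ?_, fun t t' => ?_⟩
      · rw [abs_neg, abs_div, abs_of_pos hl0, h1, pow_succ]; ring
      · rw [B_succ, B_succ, h, br_true, br_true]
        have := h2 t t'
        have e : 1 - B l s (i + 1) m t / l - (1 - B l s (i + 1) m t' / l) =
          -((B l s (i + 1) m t - B l s (i + 1) m t') / l) := by ring
        rw [e, this]; ring

/-- For `m ≥ 1` the composition has a fixed point `p ∈ [0,1]`, and `t - B t` has the sign of
`t - p`. -/
lemma exists_fix {l : ℝ} (hl : 1 < l) (s : ℕ → Bool) (i m : ℕ) (hm : 1 ≤ m) :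
    ∃ p : ℝ, p ∈ Set.Icc (0 : ℝ) 1 ∧ B l s i m p = p ∧
      (∀ t, B l s i m t < t ↔ p < t) ∧ (∀ t, t < B l s i m t ↔ t < p) := by
  obtain ⟨β, h1, h2⟩ := B_affine hl s i m
  have hl0 : 0 < l := by linarith
  have hβ : |β| < 1 := by
    rw [h1]
    refine pow_lt_one₀ (by positivity) ?_ (by omega)
    rw [div_lt_one hl0]; exact hl
  have hb : 0 < 1 - β := by
    have := (abs_lt.1 hβ).2
    linarith
  obtain ⟨p, hp⟩ : ∃ p, B l s i m p = p := by
    refine ⟨B l s i m 0 / (1 - β), ?_⟩
    have := h2 (B l s i m 0 / (1 - β)) 0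
    have e : B l s i m (B l s i m 0 / (1 - β)) = B l s i m 0 + β * (B l s i m 0 / (1 - β)) := by
      linarith
    rw [e]
    field_simp
    ring
  have key : ∀ t, t - B l s i m t = (1 - β) * (t - p) := by
    intro t
    have := h2 t p
    rw [hp] at this
    linarith
  have s1 : ∀ t, B l s i m t < t ↔ p < t := by
    intro t
    have := key t
    constructor
    · intro h
      have h3 : 0 < (1 - β) * (t - p) := by linarith
      have := (mul_pos_iff_of_pos_left hb).1 h3
      linarith
    · intro h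
      have : 0 < (1 - β) * (t - p) := mul_pos hb (by linarith)
      linarith
  have s2 : ∀ t, t < B l s i m t ↔ t < p := by
    intro t
    have := key t
    constructor
    · intro h
      by_contra hc
      have h3 : 0 ≤ (1 - β) * (t - p) := mul_nonneg hb.le (by linarith)
      linarith
    · intro h
      have : 0 < (1 - β) * (p - t) := mul_pos hb (by linarith)
      linarith
  refine ⟨p, ⟨?_, ?_⟩, hp, s1, s2⟩
  · by_contra hc
    push Not at hc
    have h3 := (s1 0).2 hc
    have h4 := (B_mem hl s i m (t := 0) ⟨le_rfl, by norm_num⟩).1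
    linarith
  · by_contra hc
    push Not at hc
    have h3 := (s2 1).2 hc
    have h4 := (B_mem hl s i m (t := 1) ⟨by norm_num, le_rfl⟩).2
    linarith

/-! ### Periodic sequences -/

/-- the periodic sequence of points attached to a fixed point `p` of the composition of
`s k, ..., s (k + L - 1)` -/
noncomputable def per (l : ℝ) (s : ℕ → Bool) (k L : ℕ) (p : ℝ) (i : ℕ) : ℝ :=
  B l s (k + i % L) (L - i % L) p

lemma per_rec {l : ℝ} (s : ℕ → Bool) (k L : ℕ) (hL : 1 ≤ L) {p : ℝ} (hp : B l s k L p = p)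
    (i : ℕ) : per l s k L p i = br l (s (k + i % L)) (per l s k L p (i + 1)) := by
  have hlt : i % L < L := Nat.mod_lt _ hL
  unfold per
  have h1 : L - i % L = (L - i % L - 1) + 1 := by omega
  rw [h1, B_succ]
  congr 1
  rcases Nat.lt_or_ge (i % L + 1) L with h | h
  · have h2 : (i + 1) % L = i % L + 1 := by
      rw [Nat.add_mod, Nat.mod_eq_of_lt (a := 1) (by omega), Nat.mod_eq_of_lt h]
    rw [h2]
    rfl
  · have h3 : i % L + 1 = L := by omega
    have h2 : (i + 1) % L = 0 := by
      rw [Nat.add_mod]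
      rcases Nat.lt_or_ge 1 L with h4 | h4
      · rw [Nat.mod_eq_of_lt (a := 1) h4, h3, Nat.mod_self]
      · have : L = 1 := by omega
        subst this
        omega
    rw [h2]
    have h5 : L - i % L - 1 = 0 := by omega
    rw [h5, B_zero, Nat.sub_zero, Nat.add_zero, hp]

lemma per_period {l : ℝ} (s : ℕ → Bool) (k L : ℕ) (p : ℝ) (i : ℕ) :
    per l s k L p (i + L) = per l s k L p i := by
  unfold per; rw [Nat.add_mod_right]

lemma per_zero {l : ℝ} (s : ℕ → Bool) (k L : ℕ) {p : ℝ} (hp : B l s k L p = p) :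
    per l s k L p 0 = p := by
  unfold per; rw [Nat.zero_mod, Nat.sub_zero, Nat.add_zero, hp]

/-- along a run of left letters -/
lemma run {l : ℝ} (hl : 1 < l) (a : ℕ → Bool) (X : ℕ → ℝ) (hX : ∀ i, X i = br l (a i) (X (i + 1)))
    (i j : ℕ) (h : ∀ k, k < j → a (i + k) = false) : X i = X (i + j) / l ^ j := by
  have hl0 : 0 < l := by linarith
  induction j with
  | zero => simp
  | succ j ih =>
    rw [ih fun k hk => h k (by omega)]
    have h1 := hX (i + j)
    rw [h j (by omega), br_false] at h1
    rw [h1, pow_succ, ← add_assoc]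
    field_simp

/-- The key bound: all points of a periodic sequence with short left runs stay below the maximum
value `l / 2` of the tent map. -/
lemma bound {l : ℝ} (hl : 1 < l) (hl2 : l < 2) (a : ℕ → Bool) (X : ℕ → ℝ) (L : ℕ) (hL : 1 ≤ L)
    (hX : ∀ i, X i = br l (a i) (X (i + 1))) (hper : ∀ i, X (i + L) = X i)
    (haper : ∀ i, a (i + L) = a i) (hc : l ^ (L - 1) * (2 - l) < 1) (i : ℕ) : X i < l / 2 := by
  have hl0 : 0 < l := by linarith
  obtain ⟨m, hm, hmax⟩ := Finset.exists_max_image (Finset.range L) X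
    ⟨0, Finset.mem_range.2 (by omega)⟩
  have hmod : ∀ i, X i = X (i % L) := by
    intro i
    induction i using Nat.strong_induction_on with
    | _ i ih =>
      rcases Nat.lt_or_ge i L with h | h
      · rw [Nat.mod_eq_of_lt h]
      · have h1 : i = (i - L) + L := by omega
        rw [h1, hper, Nat.add_mod_right]
        exact ih (i - L) (by omega)
  have hM : ∀ i, X i ≤ X m := fun i => by
    rw [hmod i]; exact hmax _ (Finset.mem_range.2 (Nat.mod_lt _ hL))
  refine lt_of_le_of_lt (hM i) ?_
  by_contra hcon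
  push Not at hcon
  have hMpos : 0 < X m := by linarith
  have h0 := hX m
  cases ham : a m
  · rw [ham, br_false] at h0
    have h1 := hM (m + 1)
    have h2 : X m * l = X (m + 1) := by rw [h0]; field_simp
    nlinarith
  · rw [ham, br_true] at h0
    have hex : ∃ j, a (m + 1 + j) = true :=
      ⟨L - 1, by rw [show m + 1 + (L - 1) = m + L by omega, haper, ham]⟩
    classical
    set j := Nat.find hex with hj
    have hjs : a (m + 1 + j) = true := Nat.find_spec hex
    have hjm : ∀ k, k < j → a (m + 1 + k) = false := by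
      intro k hk
      have := Nat.find_min hex hk
      simpa using this
    have hjL : j ≤ L - 1 := Nat.find_min' hex (by
      rw [show m + 1 + (L - 1) = m + L by omega, haper, ham])
    have hrun := run hl a X hX (m + 1) j hjm
    have hlj : 0 < l ^ j := by positivity
    have h1 : X m = 1 - X (m + 1 + j) / l ^ (j + 1) := by
      rw [h0, hrun, pow_succ]; field_simp
    have hE : 0 < l ^ (j + 1) := by positivity
    have hpow : ∀ e, e ≤ L - 1 → l ^ e * (2 - l) < 1 := by
      intro e he
      refine lt_of_le_of_lt ?_ hc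
      exact mul_le_mul_of_nonneg_right (pow_le_pow_right₀ hl.le he) (by linarith)
    rcases Nat.lt_or_ge j (L - 1) with hcase | hcase
    · have h2 := hX (m + 1 + j)
      rw [hjs, br_true] at h2
      have h3 := hM (m + 1 + j + 1)
      have h4 : 1 - X m / l ≤ X (m + 1 + j) := by
        rw [h2]
        have : X (m + 1 + j + 1) / l ≤ X m / l := by gcongr
        linarith
      have h5 : X m ≤ 1 - (1 - X m / l) / l ^ (j + 1) := by
        rw [h1]
        nth_rewrite 2 [← h1]
        have : (1 - X m / l) / l ^ (j + 1) ≤ X (m + 1 + j) / l ^ (j + 1) := by gcongr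
        linarith
      have h6 := hpow (j + 1) (by omega)
      set E := l ^ (j + 1) with hEdef
      have h7 : X m * E ≤ E - (1 - X m / l) := by
        have := mul_le_mul_of_nonneg_right h5 hE.le
        have e : (1 - (1 - X m / l) / E) * E = E - (1 - X m / l) := by field_simp
        linarith
      have hE1 : 1 ≤ E := one_le_pow₀ hl.le
      have hd : 1 / l ≤ 1 := by rw [div_le_one hl0]; linarith
      have hd2 : X m / l = X m * (1 / l) := by ring
      have hd3 : l * (1 / l) = 1 := by field_simp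
      rw [hd2] at h7
      have h8 : (l / 2) * (E - 1 / l) ≤ X m * (E - 1 / l) :=
        mul_le_mul_of_nonneg_right hcon (by linarith)
      nlinarith
    · have hj1 : j + 1 = L := by omega
      have h2 : X (m + 1 + j) = X m := by rw [show m + 1 + j = m + L by omega, hper]
      rw [h2, hj1] at h1
      have hLp : l ^ L = l ^ (L - 1) * l := by rw [← pow_succ]; congr 1; omega
      have hP : 0 < l ^ L := by positivity
      have h3 : X m * (l ^ L + 1) = l ^ L := by
        have : X m * l ^ L = l ^ L - X m := by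
          nth_rewrite 1 [h1]
          field_simp
        linarith
      have hQ : 0 < l ^ (L - 1) := by positivity
      have h4 : (l / 2) * (l ^ L + 1) ≤ l ^ L := by
        have := mul_le_mul_of_nonneg_right hcon (show (0 : ℝ) ≤ l ^ L + 1 by positivity)
        linarith
      rw [hLp] at h4
      nlinarith

/-! ### Transfer of the order from slope `2` to slope `l` -/

lemma cmp_aux {l : ℝ} (hl : 1 < l) (m : ℕ) : ∀ (a b : ℕ → Bool) (X Y X' Y' : ℕ → ℝ),
    (∀ i, X i = br l (a i) (X (i + 1))) → (∀ i, Y i = br l (b i) (Y (i + 1))) →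
    (∀ i, X' i = br 2 (a i) (X' (i + 1))) → (∀ i, Y' i = br 2 (b i) (Y' (i + 1))) →
    (∀ i, X i < l / 2) → (∀ i, Y i < l / 2) → (∀ i, X' i ≤ 1) → (∀ i, Y' i ≤ 1) →
    (∀ i, i < m → a i = b i) → a m ≠ b m → X' 0 < Y' 0 → X 0 < Y 0 := by
  have hl0 : 0 < l := by linarith
  induction m with
  | zero =>
    intro a b X Y X' Y' hX hY hX' hY' bX bY bX' bY' _ hne hlt
    have half : ∀ z, z < l / 2 → z / l < 1 / 2 := by
      intro z hz
      rw [div_lt_iff₀ hl0]; linarith
    cases ha : a 0 <;> cases hb : b 0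
    · exact absurd (ha.trans hb.symm) hne
    · rw [hX 0, hY 0, ha, hb, br_false, br_true]
      have h1 := half _ (bX 1)
      have h2 := half _ (bY 1)
      simp only [zero_add]
      linarith
    · rw [hX' 0, hY' 0, ha, hb, br_false, br_true] at hlt
      have h1 := bX' (0 + 1)
      have h2 := bY' (0 + 1)
      linarith
    · exact absurd (ha.trans hb.symm) hne
  | succ m ih =>
    intro a b X Y X' Y' hX hY hX' hY' bX bY bX' bY' heq hne hlt
    have h0 := heq 0 (by omega)
    rw [hX' 0, hY' 0, ← h0] at hlt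
    rw [hX 0, hY 0, ← h0]
    have ih1 := ih (fun i => a (i + 1)) (fun i => b (i + 1)) (fun i => X (i + 1))
      (fun i => Y (i + 1)) (fun i => X' (i + 1)) (fun i => Y' (i + 1)) (fun i => hX _)
      (fun i => hY _) (fun i => hX' _) (fun i => hY' _) (fun i => bX _) (fun i => bY _)
      (fun i => bX' _) (fun i => bY' _) (fun i hi => heq _ (by omega)) hne
    have ih2 := ih (fun i => b (i + 1)) (fun i => a (i + 1)) (fun i => Y (i + 1))
      (fun i => X (i + 1)) (fun i => Y' (i + 1)) (fun i => X' (i + 1)) (fun i => hY _)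
      (fun i => hX _) (fun i => hY' _) (fun i => hX' _) (fun i => bY _) (fun i => bX _)
      (fun i => bY' _) (fun i => bX' _) (fun i hi => (heq _ (by omega)).symm) hne.symm
    cases ha : a 0
    · rw [ha, br_false, br_false] at hlt
      rw [br_false, br_false]
      have h1 : X' (0 + 1) < Y' (0 + 1) := by linarith
      have h2 : X (0 + 1) < Y (0 + 1) := ih1 h1
      gcongr
    · rw [ha, br_true, br_true] at hlt
      rw [br_true, br_true]
      have h1 : Y' (0 + 1) < X' (0 + 1) := by linarith
      have h2 : Y (0 + 1) < X (0 + 1) := ih2 h1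
      have h3 : Y (0 + 1) / l < X (0 + 1) / l := by gcongr
      linarith

lemma cmp {l : ℝ} (hl : 1 < l) (a b : ℕ → Bool) (X Y X' Y' : ℕ → ℝ)
    (hX : ∀ i, X i = br l (a i) (X (i + 1))) (hY : ∀ i, Y i = br l (b i) (Y (i + 1)))
    (hX' : ∀ i, X' i = br 2 (a i) (X' (i + 1))) (hY' : ∀ i, Y' i = br 2 (b i) (Y' (i + 1)))
    (bX : ∀ i, X i < l / 2) (bY : ∀ i, Y i < l / 2) (bX' : ∀ i, X' i ∈ Set.Icc (0 : ℝ) 1)
    (bY' : ∀ i, Y' i ∈ Set.Icc (0 : ℝ) 1) (hlt : X' 0 < Y' 0) : X 0 < Y 0 := by
  classical
  have hex : ∃ m, a m ≠ b m := by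
    by_contra hcon
    push Not at hcon
    have h1 : ∀ i, |X' 0 - Y' 0| = |X' i - Y' i| * (1 / 2) ^ i := by
      intro i
      induction i with
      | zero => simp
      | succ i ih =>
        rw [ih, hX' i, hY' i, ← hcon i]
        have : |br 2 (a i) (X' (i + 1)) - br 2 (a i) (Y' (i + 1))| =
            |X' (i + 1) - Y' (i + 1)| * (1 / 2) := by
          cases a i
          · rw [br_false, br_false, ← sub_div, abs_div, abs_of_pos (by norm_num : (0 : ℝ) < 2)]
            ring
          · rw [br_true, br_true]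
            rw [show (1 : ℝ) - X' (i + 1) / 2 - (1 - Y' (i + 1) / 2) =
              -((X' (i + 1) - Y' (i + 1)) / 2) by ring, abs_neg, abs_div,
              abs_of_pos (by norm_num : (0 : ℝ) < 2)]
            ring
        rw [this, pow_succ]
        ring
    have h2 : ∀ i : ℕ, |X' 0 - Y' 0| ≤ (1 / 2) ^ i := by
      intro i
      rw [h1 i]
      have h3 : |X' i - Y' i| ≤ 1 := by
        rw [abs_le]
        exact ⟨by linarith [(bX' i).1, (bY' i).2], by linarith [(bX' i).2, (bY' i).1]⟩
      have h4 : (0 : ℝ) ≤ (1 / 2) ^ i := by positivity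
      nlinarith
    have h5 : 0 < |X' 0 - Y' 0| := abs_pos.2 (by linarith)
    obtain ⟨i, hi⟩ := exists_pow_lt_of_lt_one h5 (by norm_num : (1 / 2 : ℝ) < 1)
    linarith [h2 i]
  exact cmp_aux hl (Nat.find hex) a b X Y X' Y' hX hY hX' hY' bX bY (fun i => (bX' i).2)
    (fun i => (bY' i).2) (fun i hi => not_not.1 (Nat.find_min hex hi)) (Nat.find_spec hex) hlt

/-! ### Pattern transfer -/

lemma B_run {l : ℝ} (hl : 1 < l) (s : ℕ → Bool) (i m : ℕ) (t : ℝ)
    (h : ∀ k, i ≤ k → k < i + m → s k = false) : B l s i m t = t / l ^ m := by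
  induction m generalizing i with
  | zero => simp
  | succ m ih =>
    rw [B_succ, h i le_rfl (by omega), br_false, ih (i + 1) fun k h1 h2 => h k (by omega) (by omega)]
    have hl0 : 0 < l := by linarith
    rw [pow_succ]
    field_simp

/-- `r ≥ 1` is the last index before `i` with a right letter -/
def Last (s : ℕ → Bool) (r i : ℕ) : Prop :=
  1 ≤ r ∧ r < i ∧ s r = true ∧ ∀ r', r < r' → r' < i → s r' = false

lemma tent_mem {μ : ℝ} (h0 : 0 ≤ μ) (_h1 : μ ≤ 1) {x : ℝ} (hx : x ∈ Set.Icc (0 : ℝ) 1) :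
    tent μ x ∈ Set.Icc (0 : ℝ) μ := by
  obtain ⟨a, b⟩ := hx
  unfold tent
  rcases le_total x (1 - x) with h | h
  · rw [min_eq_left h]
    constructor
    · positivity
    · nlinarith
  · rw [min_eq_right h]
    constructor
    · have : 0 ≤ 1 - x := by linarith
      positivity
    · nlinarith

lemma tent_iter_mem {μ : ℝ} (h0 : 0 ≤ μ) (h1 : μ ≤ 1) {x : ℝ} (hx : x ∈ Set.Icc (0 : ℝ) 1)
    (i : ℕ) : (tent μ)^[i] x ∈ Set.Icc (0 : ℝ) 1 := by
  induction i with
  | zero => simpa using hx
  | succ i ih =>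
    rw [Function.iterate_succ_apply']
    have := tent_mem h0 h1 ih
    exact ⟨this.1, this.2.trans h1⟩

theorem core (μ : ℝ) (h1 : 1 / 2 < μ) (h2 : μ < 1) (n : ℕ) (hn : 2 ≤ n)
    (hc : (2 * μ) ^ (n - 2) * (1 - μ) < 1 / 2) (π : Fin n → ℕ)
    (hπ : Allowed (tent 1) n π) : Allowed (tent μ) n π := by
  classical
  obtain ⟨hperm, y, hy, hord⟩ := hπ
  refine ⟨hperm, ?_⟩
  obtain ⟨N, rfl⟩ : ∃ N, n = N + 1 := ⟨n - 1, by omega⟩
  have hN : 1 ≤ N := by omega
  rw [show N + 1 - 2 = N - 1 by omega] at hc
  obtain ⟨l, hl⟩ : ∃ l, l = 2 * μ := ⟨_, rfl⟩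
  rw [← hl] at hc
  have hl1 : 1 < l := by linarith
  have hl2 : l < 2 := by linarith
  have hl0 : 0 < l := by linarith
  have hμl : μ = l / 2 := by linarith
  obtain ⟨Y, hYdef⟩ : ∃ Y : ℕ → ℝ, Y = fun i => (tent 1)^[i] y := ⟨_, rfl⟩
  have hY01 : ∀ i, Y i ∈ Set.Icc (0 : ℝ) 1 := fun i => by
    rw [hYdef]; exact tent_iter_mem zero_le_one le_rfl hy i
  have hYsucc : ∀ i, Y (i + 1) = tent 1 (Y i) := fun i => by
    rw [hYdef]; exact Function.iterate_succ_apply' _ _ _
  have hpow : ∀ e, e ≤ N - 1 → l ^ e * (1 - μ) < 1 / 2 := by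
    intro e he
    refine lt_of_le_of_lt ?_ hc
    exact mul_le_mul_of_nonneg_right (pow_le_pow_right₀ hl1.le he) (by linarith)
  obtain ⟨s, hs⟩ : ∃ s : ℕ → Bool, s = fun i => decide (1 / 2 < Y i) := ⟨_, rfl⟩
  have hs1 : ∀ i, s i = true → 1 / 2 < Y i := fun i h => by
    rw [hs] at h; simpa using h
  have hs0 : ∀ i, s i = false → Y i ≤ 1 / 2 := fun i h => by
    rw [hs] at h; simpa using h
  have hYrec : ∀ i, Y i = br 2 (s i) (Y (i + 1)) := by
    intro i
    rw [hYsucc]
    cases h : s i
    · have := hs0 i h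
      rw [br_false, tent, min_eq_left (by linarith)]; ring
    · have := hs1 i h
      rw [br_true, tent, min_eq_right (by linarith)]; ring
  have hYB : ∀ m i, Y i = B 2 s i m (Y (i + m)) := by
    intro m
    induction m with
    | zero => intro i; simp
    | succ m ih =>
      intro i
      rw [B_succ, hYrec i, ih (i + 1)]
      congr 3
      omega
  have hord' : ∀ i j : ℕ, (hi : i < N + 1) → (hj : j < N + 1) →
      (π ⟨i, hi⟩ < π ⟨j, hj⟩ ↔ Y i < Y j) := by
    intro i j hi hj
    rw [hYdef]
    exact hord ⟨i, hi⟩ ⟨j, hj⟩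
  have hYdist : ∀ i j, i ≤ N → j ≤ N → i ≠ j → Y i ≠ Y j := by
    intro i j hi hj hij heq
    have hi' : i < N + 1 := by omega
    have hj' : j < N + 1 := by omega
    have e1 : π ⟨i, hi'⟩ = π ⟨j, hj'⟩ := by
      rcases lt_trichotomy (π ⟨i, hi'⟩) (π ⟨j, hj'⟩) with h | h | h
      · have := (hord' i j hi' hj').1 h
        rw [heq] at this
        exact absurd this (lt_irrefl _)
      · exact h
      · have := (hord' j i hj' hi').1 h
        rw [heq] at this
        exact absurd this (lt_irrefl _)
    have e2 := hperm.injOn (Set.mem_univ _) (Set.mem_univ _) e1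
    exact hij (by simpa using e2)
  -- the fixed points
  have hfix : ∀ l' : ℝ, 1 < l' → ∀ k : ℕ, ∃ p : ℝ, k < N → (p ∈ Set.Icc (0 : ℝ) 1 ∧
      B l' s k (N - k) p = p ∧ (∀ t, B l' s k (N - k) t < t ↔ p < t) ∧
      (∀ t, t < B l' s k (N - k) t ↔ t < p)) := by
    intro l' hl' k
    by_cases hk : k < N
    · obtain ⟨p, hp⟩ := exists_fix hl' s k (N - k) (by omega)
      exact ⟨p, fun _ => hp⟩
    · exact ⟨0, fun h => absurd h hk⟩
  choose p hp using hfix l hl1
  choose q hq using hfix 2 (by norm_num)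
  have hYq1 : ∀ k, k < N → (Y k < Y N ↔ q k < Y N) := by
    intro k hk
    have e := hYB (N - k) k
    rw [show k + (N - k) = N by omega] at e
    have := (hq k hk).2.2.1 (Y N)
    rw [← e] at this
    exact this
  have hYq2 : ∀ k, k < N → (Y N < Y k ↔ Y N < q k) := by
    intro k hk
    have e := hYB (N - k) k
    rw [show k + (N - k) = N by omega] at e
    have := (hq k hk).2.2.2 (Y N)
    rw [← e] at this
    exact this
  have hXrec : ∀ k, k < N → ∀ i, per l s k (N - k) (p k) i =
      br l (s (k + i % (N - k))) (per l s k (N - k) (p k) (i + 1)) :=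
    fun k hk i => per_rec s k (N - k) (by omega) (hp k hk).2.1 i
  have hX'rec : ∀ k, k < N → ∀ i, per 2 s k (N - k) (q k) i =
      br 2 (s (k + i % (N - k))) (per 2 s k (N - k) (q k) (i + 1)) :=
    fun k hk i => per_rec s k (N - k) (by omega) (hq k hk).2.1 i
  have hXb : ∀ k, k < N → ∀ i, per l s k (N - k) (p k) i < l / 2 := by
    intro k hk
    refine bound hl1 hl2 (fun i => s (k + i % (N - k))) _ (N - k) (by omega) (hXrec k hk)
      (fun i => per_period s k _ _ i) (fun i => ?_) ?_
    · simp only [Nat.add_mod_right]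
    · have := hpow (N - k - 1) (by omega)
      rw [hμl] at this
      have e : l ^ (N - k - 1) * (2 - l) = 2 * (l ^ (N - k - 1) * (1 - l / 2)) := by ring
      rw [e]; linarith
  have hX'b : ∀ k, k < N → ∀ i, per 2 s k (N - k) (q k) i ∈ Set.Icc (0 : ℝ) 1 := by
    intro k hk i
    unfold per
    exact B_mem (by norm_num) _ _ _ (hq k hk).1
  have hpb : ∀ k, k < N → p k < μ := by
    intro k hk
    have := hXb k hk 0
    rw [per_zero s k _ (hp k hk).2.1] at this
    rw [hμl]; exact this
  have hcmp : ∀ k m, k < N → m < N → q k < q m → p k < p m := by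
    intro k m hk hm hlt
    have := cmp hl1 (fun i => s (k + i % (N - k))) (fun i => s (m + i % (N - m))) _ _ _ _
      (hXrec k hk) (hXrec m hm) (hX'rec k hk) (hX'rec m hm) (hXb k hk) (hXb m hm) (hX'b k hk)
      (hX'b m hm) (by rw [per_zero s k _ (hq k hk).2.1, per_zero s m _ (hq m hm).2.1]; exact hlt)
    rw [per_zero s k _ (hp k hk).2.1, per_zero s m _ (hp m hm).2.1] at this
    exact this
  have hpos : ∀ m, m < N → 0 < q m → 0 < p m := by
    intro m hm hlt
    have := cmp hl1 (fun _ => false) (fun i => s (m + i % (N - m))) (fun _ => 0) _ (fun _ => 0) _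
      (fun i => by simp) (hXrec m hm) (fun i => by simp) (hX'rec m hm) (fun i => by positivity)
      (hXb m hm) (fun i => ⟨le_rfl, by norm_num⟩)
      (hX'b m hm) (by rw [per_zero s m _ (hq m hm).2.1]; exact hlt)
    rw [per_zero s m _ (hp m hm).2.1] at this
    exact this
  -- choice of `t`
  obtain ⟨t, hlo, hhi⟩ := Order.exists_between_finsets
    ({0} ∪ ((Finset.range N).filter fun k => Y k < Y N).image p ∪
      ((Finset.range N).filter fun r => Last s r N).image fun r => l ^ (N - r) * (1 - μ))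
    ({μ} ∪ ((Finset.range N).filter fun k => Y N < Y k).image p) (by
      intro a ha b hb
      simp only [Finset.mem_union, Finset.mem_singleton, Finset.mem_image, Finset.mem_filter,
        Finset.mem_range] at ha hb
      rcases hb with rfl | ⟨m, ⟨hm, hYm⟩, rfl⟩
      · rcases ha with (rfl | ⟨k, ⟨hk, _⟩, rfl⟩) | ⟨r, ⟨hr, hlast⟩, rfl⟩
        · linarith
        · exact hpb k hk
        · have := hpow (N - r) (by have := hlast.1; omega)
          linarith
      · have hqm := (hYq2 m hm).1 hYm
        rcases ha with (rfl | ⟨k, ⟨hk, hYk⟩, rfl⟩) | ⟨r, ⟨hr, hlast⟩, rfl⟩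
        · exact hpos m hm (lt_of_le_of_lt (hY01 N).1 hqm)
        · exact hcmp k m hk hm (((hYq1 k hk).1 hYk).trans hqm)
        · rcases Nat.lt_or_ge r m with hrm | hrm
          · exfalso
            have e := hYB (N - m) m
            rw [show m + (N - m) = N by omega, B_run (by norm_num) s m (N - m) (Y N)
              (fun k h3 h4 => hlast.2.2.2 k (by omega) (by omega))] at e
            have h3 : Y N / 2 ^ (N - m) ≤ Y N :=
              div_le_self (hY01 N).1 (one_le_pow₀ (by norm_num))
            linarith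
          · have h3 := hXb m hm (r - m)
            unfold per at h3
            rw [Nat.mod_eq_of_lt (show r - m < N - m by omega), show m + (r - m) = r by omega,
              show N - m - (r - m) = (N - (r + 1)) + 1 by omega, B_succ, hlast.2.2.1, br_true,
              B_run hl1 s (r + 1) (N - (r + 1)) (p m)
              (fun k h3 h4 => hlast.2.2.2 k (by omega) (by omega))] at h3
            rw [show N - r = (N - (r + 1)) + 1 by omega, pow_succ]
            have hP : 0 < l ^ (N - (r + 1)) := by positivity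
            have h4 : 1 - μ < p m / l ^ (N - (r + 1)) / l := by rw [hμl]; linarith
            rw [div_div, lt_div_iff₀ (by positivity)] at h4
            linarith)
  have ht0 : 0 < t := hlo 0 (by simp)
  have htμ : t < μ := hhi μ (by simp)
  have htl : ∀ k, k < N → Y k < Y N → p k < t := fun k hk h => hlo _ (by
    simp only [Finset.mem_union, Finset.mem_singleton, Finset.mem_image, Finset.mem_filter,
        Finset.mem_range]
    exact Or.inl (Or.inr ⟨k, ⟨hk, h⟩, rfl⟩))
  have htu : ∀ k, k < N → Y N < Y k → t < p k := fun k hk h => hhi _ (by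
    simp only [Finset.mem_union, Finset.mem_singleton, Finset.mem_image, Finset.mem_filter,
        Finset.mem_range]
    exact Or.inr ⟨k, ⟨hk, h⟩, rfl⟩)
  have htr : ∀ r, Last s r N → l ^ (N - r) * (1 - μ) < t := fun r h => hlo _ (by
    simp only [Finset.mem_union, Finset.mem_singleton, Finset.mem_image, Finset.mem_filter,
        Finset.mem_range]
    exact Or.inr ⟨r, ⟨h.2.1, h⟩, rfl⟩)
  -- the orbit
  obtain ⟨x, hx⟩ : ∃ x : ℕ → ℝ, x = fun i => B l s i (N - i) t := ⟨_, rfl⟩
  have hxN : x N = t := by rw [hx]; simp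
  have hxrec : ∀ i, i < N → x i = br l (s i) (x (i + 1)) := by
    intro i hi
    rw [hx]
    show B l s i (N - i) t = br l (s i) (B l s (i + 1) (N - (i + 1)) t)
    rw [← B_succ]
    congr 1
    omega
  have hx01 : ∀ i, x i ∈ Set.Icc (0 : ℝ) 1 := by
    intro i; rw [hx]; exact B_mem hl1 _ _ _ ⟨ht0.le, by linarith⟩
  have hhalf : ∀ z, z < μ → z / l < 1 / 2 := by
    intro z hz
    rw [div_lt_iff₀ hl0]; linarith
  have hxμ : ∀ d i, i + d = N → 1 ≤ i →
      (x i < μ ∧ ∀ r, Last s r i → l ^ (i - r) * (1 - μ) < x i) := by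
    intro d
    induction d with
    | zero =>
      intro i hi _
      have : i = N := by omega
      subst this
      rw [hxN]
      exact ⟨htμ, htr⟩
    | succ d ih =>
      intro i hi h1i
      obtain ⟨ih1, ih2⟩ := ih (i + 1) (by omega) (by omega)
      have hr := hxrec i (by omega)
      have hh := hhalf _ ih1
      cases hsi : s i
      · rw [hsi, br_false] at hr
        refine ⟨by rw [hr]; linarith, fun r hlast => ?_⟩
        have h3 : Last s r (i + 1) := by
          refine ⟨hlast.1, by have := hlast.2.1; omega, hlast.2.2.1, fun r' a b => ?_⟩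
          rcases Nat.lt_or_ge r' i with h | h
          · exact hlast.2.2.2 r' a h
          · have : r' = i := by omega
            rw [this]; exact hsi
        have h4 := ih2 r h3
        rw [show i + 1 - r = (i - r) + 1 by have := hlast.2.1; omega, pow_succ] at h4
        rw [hr, lt_div_iff₀ hl0]
        linarith
      · rw [hsi, br_true] at hr
        have h3 : Last s i (i + 1) := ⟨h1i, by omega, hsi, fun r' a b => by omega⟩
        have h4 := ih2 i h3
        rw [show i + 1 - i = 1 by omega, pow_one] at h4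
        constructor
        · have h5 : 1 - μ < x (i + 1) / l := by rw [lt_div_iff₀ hl0]; linarith
          rw [hr]; linarith
        · intro r hlast
          have h5 := hpow (i - r) (by have := hlast.1; omega)
          rw [hr]; linarith
  have hxμ' : ∀ i, 1 ≤ i → i ≤ N → x i < μ := fun i h3 h4 => (hxμ (N - i) i (by omega) h3).1
  have htent : ∀ i, i < N → tent μ (x i) = x (i + 1) := by
    intro i hi
    have hr := hxrec i hi
    have hh := hhalf _ (hxμ' (i + 1) (by omega) (by omega))
    unfold tent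
    cases hsi : s i
    · rw [hsi, br_false] at hr
      rw [min_eq_left (by rw [hr]; linarith), hr, ← hl]
      field_simp
    · rw [hsi, br_true] at hr
      rw [min_eq_right (by rw [hr]; linarith), hr, ← hl]
      field_simp
      ring
  have hiter : ∀ i, i ≤ N → (tent μ)^[i] (x 0) = x i := by
    intro i
    induction i with
    | zero => intro _; rfl
    | succ i ih =>
      intro hi
      rw [Function.iterate_succ_apply', ih (by omega), htent i (by omega)]
  have horder : ∀ d i j, i < j → j + d = N → ((x i < x j ↔ Y i < Y j) ∧ x i ≠ x j) := by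
    intro d
    induction d with
    | zero =>
      intro i j hij hj
      have : j = N := by omega
      subst this
      rw [hxN]
      have e : x i = B l s i (j - i) t := by rw [hx]
      rcases lt_or_gt_of_ne (hYdist i j (by omega) le_rfl (by omega)) with h | h
      · have h3 := ((hp i hij).2.2.1 t).2 (htl i hij h)
        rw [← e] at h3
        exact ⟨⟨fun _ => h, fun _ => h3⟩, h3.ne⟩
      · have h3 := ((hp i hij).2.2.2 t).2 (htu i hij h)
        rw [← e] at h3
        exact ⟨⟨fun h4 => absurd h4 (not_lt.2 h3.le), fun h4 => absurd h4 (not_lt.2 h.le)⟩, h3.ne'⟩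
    | succ d ih =>
      intro i j hij hj
      obtain ⟨ih1, ih2⟩ := ih (i + 1) (j + 1) (by omega) (by omega)
      have hxi := hxrec i (by omega)
      have hxj := hxrec j (by omega)
      have hYi := hYrec i
      have hYj := hYrec j
      have hYne := hYdist (i + 1) (j + 1) (by omega) (by omega) (by omega)
      have hhi' := hhalf _ (hxμ' (i + 1) (by omega) (by omega))
      have hhj' := hhalf _ (hxμ' (j + 1) (by omega) (by omega))
      have hdiv : ∀ a b : ℝ, a / l < b / l ↔ a < b := fun a b => div_lt_div_iff_of_pos_right hl0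
      cases hsi : s i <;> cases hsj : s j
      · rw [hsi, br_false] at hxi hYi
        rw [hsj, br_false] at hxj hYj
        rw [hxi, hxj, hYi, hYj, hdiv, div_lt_div_iff_of_pos_right (by norm_num : (0 : ℝ) < 2)]
        refine ⟨ih1, fun h => ih2 ?_⟩
        field_simp at h
        exact h
      · have a1 := hs0 i hsi
        have a2 := hs1 j hsj
        rw [hsi, br_false] at hxi
        rw [hsj, br_true] at hxj
        have a3 : x i < x j := by rw [hxi, hxj]; linarith
        exact ⟨⟨fun _ => by linarith, fun _ => a3⟩, a3.ne⟩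
      · have a1 := hs1 i hsi
        have a2 := hs0 j hsj
        rw [hsi, br_true] at hxi
        rw [hsj, br_false] at hxj
        have a3 : x j < x i := by rw [hxi, hxj]; linarith
        exact ⟨⟨fun h => absurd h (not_lt.2 a3.le), fun h => by linarith⟩, a3.ne'⟩
      · rw [hsi, br_true] at hxi hYi
        rw [hsj, br_true] at hxj hYj
        have b1 : x i < x j ↔ x (j + 1) < x (i + 1) := by
          rw [hxi, hxj, sub_lt_sub_iff_left, hdiv]
        have b2 : Y i < Y j ↔ Y (j + 1) < Y (i + 1) := by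
          rw [hYi, hYj, sub_lt_sub_iff_left,
            div_lt_div_iff_of_pos_right (by norm_num : (0 : ℝ) < 2)]
        refine ⟨?_, fun h => ih2 ?_⟩
        · rw [b1, b2]
          constructor
          · intro h
            rcases lt_or_gt_of_ne hYne with h3 | h3
            · exact absurd (ih1.2 h3) (not_lt.2 h.le)
            · exact h3
          · intro h
            rcases lt_or_gt_of_ne ih2 with h3 | h3
            · exact absurd (ih1.1 h3) (not_lt.2 h.le)
            · exact h3
        · rw [hxi, hxj] at h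
          have h3 : x (i + 1) / l = x (j + 1) / l := by linarith
          field_simp at h3
          exact h3
  refine ⟨x 0, hx01 0, fun i j => ?_⟩
  obtain ⟨i, hi⟩ := i
  obtain ⟨j, hj⟩ := j
  rw [hord' i j hi hj]
  show Y i < Y j ↔ (tent μ)^[i] (x 0) < (tent μ)^[j] (x 0)
  rw [hiter i (by omega), hiter j (by omega)]
  rcases lt_trichotomy i j with h | h | h
  · exact (horder (N - j) i j h (by omega)).1.symm
  · subst h; simp
  · obtain ⟨o1, o2⟩ := horder (N - i) j i h (by omega)
    have o3 := hYdist i j (by omega) (by omega) (by omega)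
    constructor
    · intro h4
      rcases lt_or_gt_of_ne o2 with h5 | h5
      · exact absurd (o1.1 h5) (not_lt.2 h4.le)
      · exact h5
    · intro h4
      rcases lt_or_gt_of_ne o3 with h5 | h5
      · exact h5
      · exact absurd (o1.2 h5) (not_lt.2 h4.le)

/-! ### The pattern `σ_n` -/

lemma sigma_perm (n : ℕ) (hn : 2 ≤ n) : IsPerm n (sigma n) := by
  refine ⟨?_, ?_, ?_⟩
  · intro i _
    have := i.2
    simp only [sigma, Set.mem_Icc]
    split_ifs <;> omega
  · intro i _ j _ h
    have hi := i.2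
    have hj := j.2
    simp only [sigma] at h
    apply Fin.ext
    split_ifs at h <;> omega
  · intro k hk
    obtain ⟨k1, k2⟩ := hk
    by_cases c1 : k = n - 1
    · exact ⟨⟨0, by omega⟩, Set.mem_univ _, by simp [sigma, c1]⟩
    · by_cases c2 : k = n
      · exact ⟨⟨1, by omega⟩, Set.mem_univ _, by simp [sigma, c2]⟩
      · refine ⟨⟨k + 1, by omega⟩, Set.mem_univ _, ?_⟩
        show (if k + 1 = 0 then n - 1 else if k + 1 = 1 then n else k + 1 - 1) = k
        rw [if_neg (by omega), if_neg (by omega)]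
        omega

lemma sigma_full (n : ℕ) (hn : 2 ≤ n) : Allowed (tent 1) n (sigma n) := by
  obtain ⟨e, he⟩ : ∃ e : ℝ, e = (1 / 2) ^ (n + 1) := ⟨_, rfl⟩
  have he0 : 0 < e := by rw [he]; positivity
  have hb : ∀ k, k ≤ n - 1 → 2 ^ k * e ≤ 1 / 4 := by
    intro k hk
    have h1 : (2 : ℝ) ^ k ≤ 2 ^ (n - 1) := pow_le_pow_right₀ (by norm_num) hk
    have h2 : (2 : ℝ) ^ (n - 1) * e = 1 / 4 := by
      rw [he, show n + 1 = (n - 1) + 2 by omega, pow_add, ← mul_assoc, ← mul_pow]
      norm_num
    calc 2 ^ k * e ≤ 2 ^ (n - 1) * e := by gcongr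
      _ = 1 / 4 := h2
  have he8 : 2 * e ≤ 1 / 4 := by simpa using hb 1 (by omega)
  have v1 : tent 1 (1 / 2 - e) = 1 - 2 * e := by
    rw [tent, min_eq_left (by linarith)]; ring
  have v2 : ∀ k, k + 2 ≤ n - 1 → (tent 1)^[k + 2] (1 / 2 - e) = 2 ^ (k + 2) * e := by
    intro k
    induction k with
    | zero =>
      intro _
      show tent 1 (tent 1 (1 / 2 - e)) = _
      rw [v1, tent, min_eq_right (by linarith)]; ring
    | succ k ih =>
      intro hk
      rw [show k + 1 + 2 = (k + 2) + 1 by ring, Function.iterate_succ_apply', ih (by omega)]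
      have := hb (k + 2) (by omega)
      rw [tent, min_eq_left (by linarith)]; ring
  have v2' : ∀ k, 2 ≤ k → k < n → (tent 1)^[k] (1 / 2 - e) = 2 ^ k * e := by
    intro k h1 h2
    obtain ⟨j, rfl⟩ : ∃ j, k = j + 2 := ⟨k - 2, by omega⟩
    exact v2 j (by omega)
  have vpos : ∀ k : ℕ, 0 < 2 ^ k * e := fun k => by positivity
  refine ⟨sigma_perm n hn, 1 / 2 - e, ⟨by linarith, by linarith⟩, ?_⟩
  rintro ⟨i, hi⟩ ⟨j, hj⟩
  simp only [sigma]
  rcases Nat.lt_or_ge i 2 with hi2 | hi2 <;> rcases Nat.lt_or_ge j 2 with hj2 | hj2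
  · interval_cases i <;> interval_cases j
    · simp
    · simp only [Function.iterate_zero, id, Function.iterate_one, v1]
      simp only [if_true, one_ne_zero, if_false]
      exact ⟨fun _ => by linarith, fun _ => by omega⟩
    · simp only [Function.iterate_zero, id, Function.iterate_one, v1]
      simp only [if_true, one_ne_zero, if_false]
      exact ⟨fun h => by omega, fun h => by linarith⟩
    · simp
  · have hv := v2' j hj2 hj
    have hbj := hb j (by omega)
    rw [hv, if_neg (show ¬ j = 0 by omega), if_neg (show ¬ j = 1 by omega)]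
    interval_cases i
    · simp only [Function.iterate_zero, id, if_true]
      exact ⟨fun h => by omega, fun h => by linarith⟩
    · simp only [Function.iterate_one, v1, if_true, one_ne_zero, if_false]
      exact ⟨fun h => by omega, fun h => by linarith⟩
  · have hv := v2' i hi2 hi
    have hbi := hb i (by omega)
    rw [hv, if_neg (show ¬ i = 0 by omega), if_neg (show ¬ i = 1 by omega)]
    interval_cases j
    · simp only [Function.iterate_zero, id, if_true]
      exact ⟨fun h => by linarith, fun h => by omega⟩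
    · simp only [Function.iterate_one, v1, if_true, one_ne_zero, if_false]
      exact ⟨fun h => by linarith, fun h => by omega⟩
  · rw [v2' i hi2 hi, v2' j hj2 hj, if_neg (show ¬ i = 0 by omega),
      if_neg (show ¬ i = 1 by omega), if_neg (show ¬ j = 0 by omega),
      if_neg (show ¬ j = 1 by omega)]
    rw [mul_lt_mul_iff_left₀ he0, pow_lt_pow_iff_right₀ (by norm_num : (1 : ℝ) < 2)]
    omega

lemma sigma_imp (μ : ℝ) (h1 : 1 / 2 < μ) (h2 : μ < 1) (n : ℕ) (hn : 2 ≤ n)
    (h : Allowed (tent μ) n (sigma n)) : (2 * μ) ^ (n - 2) * (1 - μ) < 1 / 2 := by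
  obtain ⟨_, x, hx, hord⟩ := h
  rcases Nat.lt_or_ge n 4 with h4 | h4
  · interval_cases n
    · norm_num; linarith
    · norm_num; nlinarith [mul_pos (show (0 : ℝ) < μ - 1 / 2 by linarith) (show (0 : ℝ) < μ - 1 / 2 by linarith)]
  obtain ⟨l, hl⟩ : ∃ l, l = 2 * μ := ⟨_, rfl⟩
  rw [← hl]
  have hl1 : 1 < l := by linarith
  have hl0 : 0 < l := by linarith
  obtain ⟨v, hv⟩ : ∃ v : ℕ → ℝ, v = fun i => (tent μ)^[i] x := ⟨_, rfl⟩
  have hv01 : ∀ i, v i ∈ Set.Icc (0 : ℝ) 1 := fun i => by
    rw [hv]; exact tent_iter_mem (by linarith) h2.le hx i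
  have hvs : ∀ i, v (i + 1) = tent μ (v i) := fun i => by
    rw [hv]; exact Function.iterate_succ_apply' _ _ _
  have hL : ∀ i, v i ≤ 1 / 2 → v (i + 1) = l * v i := fun i h => by
    rw [hvs, tent, min_eq_left (by linarith), hl]
  have hR : ∀ i, 1 / 2 ≤ v i → v (i + 1) = l * (1 - v i) := fun i h => by
    rw [hvs, tent, min_eq_right (by linarith), hl]
  have hle : ∀ i, v (i + 1) ≤ μ := fun i => by
    rw [hvs]; exact (tent_mem (by linarith) h2.le (hv01 i)).2
  have ho : ∀ i j : ℕ, (hi : i < n) → (hj : j < n) →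
      (sigma n ⟨i, hi⟩ < sigma n ⟨j, hj⟩ ↔ v i < v j) := by
    intro i j hi hj
    rw [hv]
    exact hord ⟨i, hi⟩ ⟨j, hj⟩
  have o01 : v 0 < v 1 := (ho 0 1 (by omega) (by omega)).1 (by simp [sigma]; omega)
  have o21 : v 2 < v 1 := (ho 2 1 (by omega) (by omega)).1 (by simp [sigma]; omega)
  have olast : v (n - 1) < v 0 := (ho (n - 1) 0 (by omega) (by omega)).1 (by
    simp only [sigma]
    rw [if_neg (by omega), if_neg (by omega), if_pos trivial]; omega)
  have oinc : ∀ i, 2 ≤ i → i + 1 ≤ n - 1 → v i < v (i + 1) := fun i a b =>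
    (ho i (i + 1) (by omega) (by omega)).1 (by
      simp only [sigma]
      rw [if_neg (by omega), if_neg (by omega), if_neg (by omega), if_neg (by omega)]; omega)
  -- the fixed point
  obtain ⟨f, hf⟩ : ∃ f : ℝ, f = l / (1 + l) := ⟨_, rfl⟩
  have hf1 : f * (1 + l) = l := by rw [hf]; field_simp
  have hfhalf : 1 / 2 < f := by
    rw [hf, lt_div_iff₀ (by linarith)]; linarith
  have hbelow : ∀ i, v i < v (i + 1) → v i < f := by
    intro i hi
    by_contra hc
    push Not at hc
    rw [hR i (by linarith)] at hi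
    nlinarith
  have habove : ∀ i, 1 / 2 ≤ v i → v i < f → f < v (i + 1) := by
    intro i a b
    rw [hR i a]
    nlinarith
  have hx1 : 1 / 2 ≤ v 1 := by
    by_contra hc
    push Not at hc
    have := hL 1 hc.le
    have h3 := (hv01 1).1
    have h4 : v 2 = l * v 1 := this
    nlinarith
  have hx2 : l * (1 - μ) ≤ v 2 := by
    have h3 : v 2 = l * (1 - v 1) := hR 1 hx1
    have h5 : v 1 ≤ μ := hle 0
    rw [h3]
    gcongr
  have hj : ∀ j, 2 ≤ j → j ≤ n - 1 → v j < f := by
    intro j a b
    rcases Nat.lt_or_ge j (n - 1) with h3 | h3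
    · exact hbelow j (oinc j a (by omega))
    · have : j = n - 1 := by omega
      rw [this]
      exact olast.trans (hbelow 0 o01)
  have hleft : ∀ i, 2 ≤ i → i + 1 ≤ n - 1 → v i < 1 / 2 := by
    intro i a b
    by_contra hc
    push Not at hc
    have h3 := habove i hc (hj i a (by omega))
    have h5 := hj (i + 1) (by omega) b
    linarith
  have hgrow : ∀ k, k + 2 ≤ n - 1 → v (k + 2) = l ^ k * v 2 := by
    intro k
    induction k with
    | zero => intro _; simp
    | succ k ih =>
      intro hk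
      have := hL (k + 2) (hleft (k + 2) (by omega) (by omega)).le
      rw [show k + 1 + 2 = k + 2 + 1 by ring, this, ih (by omega), pow_succ]
      ring
  have hend : v (n - 1) = l ^ (n - 3) * v 2 := by
    have := hgrow (n - 3) (by omega)
    rw [show n - 3 + 2 = n - 1 by omega] at this
    exact this
  by_contra hcon
  push Not at hcon
  have hpow : l ^ (n - 2) = l ^ (n - 3) * l := by rw [← pow_succ]; congr 1; omega
  have hP : 1 ≤ l ^ (n - 3) := one_le_pow₀ hl1.le
  rcases le_total (v 0) (1 / 2) with h3 | h3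
  · have h5 : l ^ (n - 3) * (l * (1 - μ)) ≤ l ^ (n - 3) * v 2 := by gcongr
    rw [hpow] at hcon
    rw [hend] at olast
    linarith
  · have h5 : v 1 = l * (1 - v 0) := hR 0 h3
    have h6 : v 2 = l * (1 - v 1) := hR 1 hx1
    have h7 : v (n - 1) = l ^ (n - 2) * (1 - μ) + l ^ (n - 2) * l * (v 0 - 1 / 2) := by
      rw [hend, h6, h5, hpow]
      have : μ = l / 2 := by linarith
      rw [this]
      ring
    have h8 : 1 ≤ l ^ (n - 2) * l := by
      rw [hpow]
      have : 1 ≤ l * l := by nlinarith
      nlinarith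
    have h9 : (v 0 - 1 / 2) ≤ l ^ (n - 2) * l * (v 0 - 1 / 2) :=
      le_mul_of_one_le_left (by linarith) h8
    linarith

/-- **Full answer to Q1 (true), in a strong form.** Let `1/2 < μ < 1`.
(1) If `n` is the least length of a `μ`-forbidden pattern, then `T_μ` avoids `σ_n`.
(2) Moreover, whenever there is any `μ`-forbidden pattern of length `n`, `σ_n` is `μ`-forbidden.
(3) There is a `μ`-forbidden pattern of length `n ≥ 2` iff `(2μ)^(n-2) (1-μ) ≥ 1/2`. -/
theorem result (μ : ℝ) (h1 : 1 / 2 < μ) (h2 : μ < 1) :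
    (∀ n : ℕ, IsLeast {m : ℕ | ∃ π : Fin m → ℕ, Forbidden μ m π} n →
      ¬ Allowed (tent μ) n (sigma n)) ∧
    (∀ n : ℕ, (∃ π : Fin n → ℕ, Forbidden μ n π) → 2 ≤ n ∧ Forbidden μ n (sigma n)) ∧
    (∀ n : ℕ, 2 ≤ n →
      ((∃ π : Fin n → ℕ, Forbidden μ n π) ↔ 1 / 2 ≤ (2 * μ) ^ (n - 2) * (1 - μ))) := by
  have key : ∀ n : ℕ, (∃ π : Fin n → ℕ, Forbidden μ n π) →
      2 ≤ n ∧ 1 / 2 ≤ (2 * μ) ^ (n - 2) * (1 - μ) := by
    rintro n ⟨π, hπ1, hπ2⟩
    have hn : 2 ≤ n := by
      by_contra hc
      have hn' : n < 2 := by omega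
      apply hπ2
      refine ⟨hπ1.1, 0, ⟨le_rfl, zero_le_one⟩, ?_⟩
      interval_cases n
      · exact fun i => i.elim0
      · intro i j
        rw [Subsingleton.elim i j]
        simp
    refine ⟨hn, ?_⟩
    by_contra hc
    push Not at hc
    exact hπ2 (core μ h1 h2 n hn hc π hπ1)
  have key2 : ∀ n : ℕ, 2 ≤ n → 1 / 2 ≤ (2 * μ) ^ (n - 2) * (1 - μ) →
      Forbidden μ n (sigma n) := fun n hn hc =>
    ⟨sigma_full n hn, fun h => absurd (sigma_imp μ h1 h2 n hn h) (not_lt.2 hc)⟩
  refine ⟨fun n hn => ?_, fun n hn => ?_, fun n hn => ⟨fun h => (key n h).2, fun h =>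
    ⟨_, key2 n hn h⟩⟩⟩
  · obtain ⟨a, b⟩ := key n hn.1
    exact (key2 n a b).2
  · obtain ⟨a, b⟩ := key n hn
    exact ⟨a, key2 n a b⟩

end Pool.Agent.Results.MP_25bc1d_an.ShortestForbidden
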